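import Pool.Agent.Helper87.UW.FarB

/-!
# UX: block Z8 (`far_mean`) with `|v| ≤ vv`
-/

set_option autoImplicit false
open MeasureTheory Set Filter Topology
open Pool.Agent.Helper57.Zeta Pool.Agent.Helper57.LH Pool.Agent.Helper57.ED Pool.Agent.Helper54.LG
open Pool.Agent.Helper69.UG (pt NX XX NR NM WW near far)
open Pool.Agent.Helper69.UW
open Pool.Agent.Helper56.UG (aj aj_nonneg Jc Kc Kc_spec IK zs_re56 two_za_le tsum_bound56 sum_aj plog_pt plog WW_pos sum_k1 sum_k2 ev_T)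

namespace Pool.Agent.Helper87.UX

open Pool.Agent.Helper87.UW

variable {δ : ℝ}

/-- constants depending on `c`, `m` -/
lemma ev_m (C4 : ℝ) : ∃ c0 : ℝ, 1 ≤ c0 ∧ ∀ T c m M : ℝ, Adm c0 T c m → m ≤ M → M ≤ 2 * c →
    4 * (2 + 4 * M ^ 2) * C4 * Real.exp (-√m) ≤ 1 / 4 := by
  refine ⟨(576 * |C4| + 8) ^ 2, by nlinarith [abs_nonneg C4], fun T c m M h hmM hMc => ?_⟩
  have hs0 : 0 ≤ 576 * |C4| + 8 := by positivity
  have hc3 := h.1
  have hm1 := h.2.1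
  have h1 := h.log_le_sqrt (sq_nonneg _)
  rw [Real.sqrt_sq hs0] at h1
  have hl := h.one_le_log
  have h2 : 8 * Real.log c ≤ √m := by nlinarith [abs_nonneg C4]
  have h3 : 576 * |C4| ≤ √m := by
    have h4 := h.le_m (sq_nonneg _)
    have h5 := Real.sqrt_le_sqrt h4
    rw [Real.sqrt_sq hs0] at h5
    linarith
  have h4 : Real.exp (-√m) ≤ (c ^ 4)⁻¹ * Real.exp (-(√m / 2)) := by
    have e1 : (c ^ 4)⁻¹ = Real.exp (-(4 * Real.log c)) := by
      rw [Real.exp_neg, show (4 : ℝ) * Real.log c = ((4 : ℕ) : ℝ) * Real.log c by norm_num, Real.exp_nat_mul,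
        Real.exp_log (by linarith)]
    rw [e1, ← Real.exp_add]
    apply Real.exp_le_exp.2
    linarith
  have h5 : 288 * |C4| * Real.exp (-(√m / 2)) ≤ 1 := by
    rw [Real.exp_neg, ← div_eq_mul_inv, div_le_one (Real.exp_pos _)]
    have := Real.add_one_le_exp (√m / 2)
    linarith
  have hc1 : 1 ≤ c := by linarith
  have h6 : 2 + 4 * M ^ 2 ≤ 18 * c ^ 4 := by
    have h7 : M ^ 2 ≤ (2 * c) ^ 2 := pow_le_pow_left₀ (by linarith) hMc 2
    have h8 : 1 ≤ c ^ 2 := one_le_pow₀ hc1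
    nlinarith
  have hc4 : 0 < c ^ 4 := by positivity
  calc 4 * (2 + 4 * M ^ 2) * C4 * Real.exp (-√m) ≤ 4 * (2 + 4 * M ^ 2) * |C4| * Real.exp (-√m) := by
        apply mul_le_mul_of_nonneg_right _ (Real.exp_pos _).le
        exact mul_le_mul_of_nonneg_left (le_abs_self _) (by positivity)
    _ ≤ 4 * (18 * c ^ 4) * |C4| * ((c ^ 4)⁻¹ * Real.exp (-(√m / 2))) := by
        apply mul_le_mul _ h4 (Real.exp_pos _).le (by positivity)
        apply mul_le_mul_of_nonneg_right _ (abs_nonneg _)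
        linarith
    _ = 1 / 4 * (288 * |C4| * Real.exp (-(√m / 2))) := by
        field_simp
        ring
    _ ≤ 1 / 4 := by linarith

/-- Z8 from its inputs -/
theorem far_mean_of
    (h3 : ∃ C : ℝ, 0 < C ∧ ∀ T : ℝ, 3 ≤ T → ∀ (Q : Finset ℕ) (y : ℝ), 0 < y → ∀ K : ℕ, 1 ≤ K →
      4 * 2 ^ K * y ≤ Real.log T / 4 → ∀ (t : ℝ) (Z : Finset ZS),
      (∀ ρ ∈ Z, y ≤ Real.log T * ((ρ : ℂ).re - 1 / 2) ∧ Real.log T * ((ρ : ℂ).re - 1 / 2) ≤ 2 * y ∧
        |(ρ : ℂ).im - t| ≤ y / Real.log T) →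
      ∑ ρ ∈ Z, mx ρ ≤ GY T Q y K t + C * Real.log (4 + |t|) * (2 * cen T Q y (K - 1) t))
    (h4 : ∃ C c0 T0 : ℝ, 0 < C ∧ ∀ T c m v : ℝ, T0 ≤ T → Adm c0 T c m → |v| ≤ vv δ c m →
      ∀ τ u y : ℝ, |τ| ≤ 2 * T → |u| ≤ T → 2 ≤ y → ∀ K : ℕ, 1 ≤ K → 4 * 2 ^ K * y ≤ Real.log T / 4 →
      Integrable (fun t => wt δ T c m v τ t * GY T (PR δ T c m) y K (t + u)) ∧
      ∫ t, wt δ T c m v τ t * GY T (PR δ T c m) y K (t + u) ≤ C * Real.exp (C * √m - y / 64) * VV δ T c m v)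
    (h5 : ∃ c0 T0 : ℝ, ∀ T c m v : ℝ, T0 ≤ T → Adm c0 T c m → |v| ≤ vv δ c m →
      ∀ τ u y : ℝ, |τ| ≤ 2 * T → |u| ≤ T → 2 ≤ y → ∀ K : ℕ, 1 ≤ K → 4 * 2 ^ K * y ≤ Real.log T / 4 →
      Real.log T / 4 < 8 * 2 ^ K * y →
      Integrable (fun t => wt δ T c m v τ t * (Real.log (4 + |t + u|) * cen T (PR δ T c m) y (K - 1) (t + u))) ∧
      ∫ t, wt δ T c m v τ t * (Real.log (4 + |t + u|) * cen T (PR δ T c m) y (K - 1) (t + u)) ≤
        T ^ (-(1 / 1000) : ℝ) * VV δ T c m v)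
    (h6 : open Classical in ∃ c0 T0 : ℝ, ∀ T c m v : ℝ, T0 ≤ T → Adm c0 T c m → |v| ≤ vv δ c m →
      ∀ M τ u : ℝ, m ≤ M → M ≤ 2 * c → |τ| ≤ 2 * T → |u| ≤ T →
      Integrable (fun t => wt δ T c m v τ t * ∑' ρ : ZS, mx ρ * (if |(ρ : ℂ).re - 1 / 2| < 1 / 64 then 0 else
        1 / (1 + zb (XX T M) (t + u) ρ ^ 2))) ∧
      ∫ t, wt δ T c m v τ t * ∑' ρ : ZS, mx ρ * (if |(ρ : ℂ).re - 1 / 2| < 1 / 64 then 0 else
        1 / (1 + zb (XX T M) (t + u) ρ ^ 2)) ≤ T ^ (-(1 / 2000) : ℝ) * VV δ T c m v)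
    (h7 : open Classical in ∃ C : ℝ, 0 < C ∧ ∀ T : ℝ, 3 ≤ T → ∀ X : ℝ, 1 ≤ X → ∀ t : ℝ,
      Summable (fun ρ : ZS => mx ρ * (1 / (1 + zb X t ρ ^ 2))) ∧
      ∑' ρ : ZS, mx ρ * (if |(ρ : ℂ).im - t| ≤ T / 2 then 0 else 1 / (1 + zb X t ρ ^ 2)) ≤
        C * Real.log (4 + T + |t|) / T)
    (h2 : ∃ c0 T0 : ℝ, ∀ T c m v : ℝ, T0 ≤ T → Adm c0 T c m → |v| ≤ vv δ c m →
      ∀ n, |rr δ T c m v n| ≤ T ^ (1 / 192 : ℝ) ∧ 1 ≤ VV δ T c m v) :
    ∃ C1 c0 T0 : ℝ, 1 ≤ C1 ∧ ∀ T c m v : ℝ, T0 ≤ T → Adm c0 T c m → |v| ≤ vv δ c m →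
      ∀ M τ u : ℝ, m ≤ M → M ≤ 2 * c → |τ| ≤ 2 * T → |u| ≤ T / 4 →
      Integrable (fun t => wt δ T c m v τ t * far T M (C1 * √m) (t + u)) ∧
      ∫ t, wt δ T c m v τ t * far T M (C1 * √m) (t + u) ≤ VV δ T c m v := by
  classical
  obtain ⟨C3', hC3', h3⟩ := h3
  obtain ⟨C4, c4, T4, hC4, h4⟩ := h4
  obtain ⟨c5, T5, h5⟩ := h5
  obtain ⟨c6, T6, h6⟩ := h6
  obtain ⟨C7, hC7, h7⟩ := h7
  obtain ⟨c2, T2, h2⟩ := h2
  obtain ⟨I1, hI1, hlog⟩ := wt_log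
  set C3 : ℝ := 2 * C3' with hC3
  have hC30 : 0 < C3 := by positivity
  obtain ⟨cc0, hcc0, hcc⟩ := ev_m C4
  obtain ⟨TT0, hTT⟩ := ev_T C3 C7 I1
  set C1 : ℝ := 128 * (C4 + 1) with hC1
  refine ⟨C1, max (max (max c4 c5) (max c6 c2)) (max cc0 4000), max (max (max T4 T5) (max T6 T2)) TT0, by rw [hC1]; linarith, ?_⟩
  intro T c m v hT hc hv M τ u hmM hMc hτ hu
  simp only [max_le_iff] at hT
  obtain ⟨⟨⟨hT4, hT5⟩, hT6, hT2⟩, hTTT⟩ := hT
  have hc4 : c4 ≤ max (max (max c4 c5) (max c6 c2)) (max cc0 4000) := le_max_of_le_left (le_max_of_le_left (le_max_left _ _))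
  have hc5 : c5 ≤ max (max (max c4 c5) (max c6 c2)) (max cc0 4000) := le_max_of_le_left (le_max_of_le_left (le_max_right _ _))
  have hc6 : c6 ≤ max (max (max c4 c5) (max c6 c2)) (max cc0 4000) := le_max_of_le_left (le_max_of_le_right (le_max_left _ _))
  have hc2 : c2 ≤ max (max (max c4 c5) (max c6 c2)) (max cc0 4000) := le_max_of_le_left (le_max_of_le_right (le_max_right _ _))
  have hccc : cc0 ≤ max (max (max c4 c5) (max c6 c2)) (max cc0 4000) := le_max_of_le_right (le_max_left _ _)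
  have h4000 : (4000 : ℝ) ≤ max (max (max c4 c5) (max c6 c2)) (max cc0 4000) := le_max_of_le_right (le_max_right _ _)
  have hm4000 : 4000 ≤ m := (hc.mono h4000).le_m (by norm_num)
  have hM4000 : 4000 ≤ M := by linarith
  obtain ⟨g1, g2, g3, g4, g5⟩ := hTT T hTTT
  have hcpos : 0 < c := by linarith [hc.1]
  have hMpos : 0 < M := by linarith
  have hT3 : 3 ≤ T := le_trans (by have := Real.add_one_le_exp (3 : ℝ); linarith) g1
  have hT0 : 0 < T := by linarith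
  have hL3 : 3 ≤ Real.log T := by
    rw [← Real.log_exp 3]
    exact Real.log_le_log (Real.exp_pos _) g1
  have hcL : 64 * c ≤ Real.log T := by
    have h1 := hc.2.2.2.2
    have h2 : c * 1 ≤ c * Real.log (Real.log T) := mul_le_mul_of_nonneg_left g2 hcpos.le
    linarith
  have hML : M ≤ Real.log T := by linarith
  have hX16 : 16 ≤ XX T M := by
    unfold XX
    rw [le_div_iff₀ hMpos]
    linarith
  have hXe : Real.exp (XX T M) ≤ T ^ (1 / 4000 : ℝ) := by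
    rw [Real.rpow_def_of_pos hT0]
    apply Real.exp_le_exp.2
    unfold XX
    rw [div_le_iff₀ hMpos]
    nlinarith
  have hV1 : 1 ≤ VV δ T c m v := (h2 T c m v hT2 (hc.mono hc2) hv 0).2
  have hrr : ∀ n, |rr δ T c m v n| ≤ T ^ (1 / 192 : ℝ) := fun n => (h2 T c m v hT2 (hc.mono hc2) hv n).1
  have hV0 : 0 ≤ VV δ T c m v := by linarith
  have hsq : 1 ≤ √m := by
    rw [Real.one_le_sqrt]
    linarith
  set Y : ℝ := C1 * √m with hY
  have hC1128 : 128 ≤ C1 := by rw [hC1]; linarith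
  have hY128 : 128 ≤ Y := by
    rw [hY]
    nlinarith
  have hY1 : 1 ≤ Y := by linarith
  have hch : ∀ T : ℝ, 3 ≤ T → ∀ (Q : Finset ℕ) (y : ℝ), 0 < y → ∀ K : ℕ, 1 ≤ K → 4 * 2 ^ K * y ≤ Real.log T / 4 →
      ∀ (t : ℝ) (Z : Finset ZS),
      (∀ ρ ∈ Z, y ≤ Real.log T * ((ρ : ℂ).re - 1 / 2) ∧ Real.log T * ((ρ : ℂ).re - 1 / 2) ≤ 2 * y ∧
        |(ρ : ℂ).im - t| ≤ y / Real.log T) →
      ∑ ρ ∈ Z, mx ρ ≤ GY T Q y K t + C3 / 2 * Real.log (4 + |t|) * (2 * cen T Q y (K - 1) t) := by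
    intro T hT Q y hy K hK hKy t Z hZ
    have := h3 T hT Q y hy K hK hKy t Z hZ
    rw [hC3, mul_div_cancel_left₀ _ (by norm_num : (2 : ℝ) ≠ 0)]
    exact this
  -- the means
  have hLY : ∀ k ∈ IK T Y, Integrable (fun t => wt δ T c m v τ t * LY C3 T M (PR δ T c m) (2 ^ k * Y) (t + u)) ∧
      ∫ t, wt δ T c m v τ t * LY C3 T M (PR δ T c m) (2 ^ k * Y) (t + u) ≤
        Real.exp (4 * (2 ^ k * Y) / M) * ((2 + 4 * M ^ 2) * ((C4 * Real.exp (C4 * √m - 2 ^ k * Y / 64) + C3 * T ^ (-(1 / 1000) : ℝ)) * VV δ T c m v)) := by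
    intro k hk
    have h1k : (1 : ℝ) ≤ 2 ^ k := one_le_pow₀ (by norm_num)
    have hkI : 2 ^ k * Y ≤ Real.log T / 64 := by
      unfold IK at hk
      exact (Finset.mem_filter.1 hk).2
    refine mean_LY hC30.le hC4.le hT3 hu hV0 ?_ ?_ (by nlinarith) hkI
    · intro u' y hu' hy K hK hKy
      exact h4 T c m v hT4 (hc.mono hc4) hv τ u' y hτ hu' hy K hK hKy
    · intro u' y hu' hy K hK hKy hKy2
      exact h5 T c m v hT5 (hc.mono hc5) hv τ u' y hτ hu' hy K hK hKy hKy2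
  obtain ⟨i6, b6⟩ := h6 T c m v hT6 (hc.mono hc6) hv M τ u hmM hMc hτ (by linarith)
  obtain ⟨i7, b7⟩ := hlog T c m v τ u _ (by linarith) hrr hτ hu
  -- the majorant
  set Mj : ℝ → ℝ := fun t => 2 * ∑ k ∈ IK T Y, wt δ T c m v τ t * LY C3 T M (PR δ T c m) (2 ^ k * Y) (t + u) +
    Real.exp (XX T M) * (C7 / T) * (wt δ T c m v τ t * Real.log (4 + T + |t + u|)) +
    Real.exp (XX T M) * (wt δ T c m v τ t * ∑' ρ : ZS, mx ρ * (if |(ρ : ℂ).re - 1 / 2| < 1 / 64 then 0 else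
      1 / (1 + zb (XX T M) (t + u) ρ ^ 2))) with hM
  have iA : Integrable (fun t => 2 * ∑ k ∈ IK T Y, wt δ T c m v τ t * LY C3 T M (PR δ T c m) (2 ^ k * Y) (t + u)) :=
    (integrable_finsetSum _ fun k hk => (hLY k hk).1).const_mul 2
  have iB : Integrable (fun t => Real.exp (XX T M) * (C7 / T) * (wt δ T c m v τ t * Real.log (4 + T + |t + u|))) := i7.const_mul _
  have iC : Integrable (fun t => Real.exp (XX T M) * (wt δ T c m v τ t * ∑' ρ : ZS, mx ρ * (if |(ρ : ℂ).re - 1 / 2| < 1 / 64 then 0 else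
      1 / (1 + zb (XX T M) (t + u) ρ ^ 2)))) := i6.const_mul _
  have iM : Integrable Mj := (iA.add iB).add iC
  have bA : ∫ t, 2 * ∑ k ∈ IK T Y, wt δ T c m v τ t * LY C3 T M (PR δ T c m) (2 ^ k * Y) (t + u) ≤ 1 / 4 * VV δ T c m v + 1 / 4 * VV δ T c m v := by
    rw [integral_const_mul, integral_finsetSum _ fun k hk => (hLY k hk).1]
    have q1 : ∑ k ∈ IK T Y, ∫ t, wt δ T c m v τ t * LY C3 T M (PR δ T c m) (2 ^ k * Y) (t + u) ≤
        ∑ k ∈ IK T Y, ((2 + 4 * M ^ 2) * (C4 * Real.exp (C4 * √m)) * VV δ T c m v *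
          (Real.exp (4 * (2 ^ k * Y) / M) * Real.exp (-(2 ^ k * Y / 64))) +
          (2 + 4 * M ^ 2) * (C3 * T ^ (-(1 / 1000) : ℝ)) * VV δ T c m v * Real.exp (4 * (2 ^ k * Y) / M)) := by
      refine Finset.sum_le_sum fun k hk => (hLY k hk).2.trans (le_of_eq ?_)
      rw [sub_eq_add_neg, Real.exp_add]
      ring
    rw [Finset.sum_add_distrib, ← Finset.mul_sum, ← Finset.mul_sum] at q1
    have q2 := sum_k1 (T := T) (Y := Y) (show 512 ≤ M by linarith) hY128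
    have q3 := sum_k2 (T := T) (c := M) (Y := Y) (le_trans (Real.exp_le_exp.2 (by norm_num)) g1) (by linarith)
    have q4 : Real.exp (C4 * √m) * (2 * Real.exp (-(Y / 128))) = 2 * Real.exp (-√m) := by
      have q5 : -√m = C4 * √m + -(Y / 128) := by
        rw [hY, hC1]
        ring
      rw [q5, Real.exp_add]
      ring
    have q5 := hcc T c m M (hc.mono hccc) hmM hMc
    have q6 : 2 * ((2 + 4 * M ^ 2) * (C4 * Real.exp (C4 * √m)) * VV δ T c m v * ∑ k ∈ IK T Y,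
        (Real.exp (4 * (2 ^ k * Y) / M) * Real.exp (-(2 ^ k * Y / 64)))) ≤ 1 / 4 * VV δ T c m v := by
      calc 2 * ((2 + 4 * M ^ 2) * (C4 * Real.exp (C4 * √m)) * VV δ T c m v * ∑ k ∈ IK T Y,
            (Real.exp (4 * (2 ^ k * Y) / M) * Real.exp (-(2 ^ k * Y / 64)))) ≤
            2 * ((2 + 4 * M ^ 2) * (C4 * Real.exp (C4 * √m)) * VV δ T c m v * (2 * Real.exp (-(Y / 128)))) := by
            apply mul_le_mul_of_nonneg_left _ (by norm_num)
            apply mul_le_mul_of_nonneg_left q2 (by positivity)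
        _ = 2 * (2 + 4 * M ^ 2) * C4 * VV δ T c m v * (Real.exp (C4 * √m) * (2 * Real.exp (-(Y / 128)))) := by ring
        _ = (4 * (2 + 4 * M ^ 2) * C4 * Real.exp (-√m)) * VV δ T c m v := by rw [q4]; ring
        _ ≤ 1 / 4 * VV δ T c m v := mul_le_mul_of_nonneg_right q5 hV0
    have q7 : 2 * ((2 + 4 * M ^ 2) * (C3 * T ^ (-(1 / 1000) : ℝ)) * VV δ T c m v * ∑ k ∈ IK T Y, Real.exp (4 * (2 ^ k * Y) / M)) ≤
        1 / 4 * VV δ T c m v := by
      calc 2 * ((2 + 4 * M ^ 2) * (C3 * T ^ (-(1 / 1000) : ℝ)) * VV δ T c m v * ∑ k ∈ IK T Y, Real.exp (4 * (2 ^ k * Y) / M)) ≤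
            2 * ((2 + 4 * Real.log T ^ 2) * (C3 * T ^ (-(1 / 1000) : ℝ)) * VV δ T c m v * (3 * Real.log T * T ^ (1 / 4000 : ℝ))) := by
            apply mul_le_mul_of_nonneg_left _ (by norm_num)
            apply mul_le_mul _ q3 (Finset.sum_nonneg fun k _ => (Real.exp_pos _).le) (by positivity)
            apply mul_le_mul_of_nonneg_right _ hV0
            apply mul_le_mul_of_nonneg_right _ (by positivity)
            have : M ^ 2 ≤ Real.log T ^ 2 := pow_le_pow_left₀ hMpos.le hML 2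
            linarith
        _ = 2 * ((2 + 4 * Real.log T ^ 2) * (C3 * T ^ (-(1 / 1000) : ℝ)) * (3 * Real.log T * T ^ (1 / 4000 : ℝ))) * VV δ T c m v := by ring
        _ ≤ 1 / 4 * VV δ T c m v := mul_le_mul_of_nonneg_right g3 hV0
    linarith
  have bB : ∫ t, Real.exp (XX T M) * (C7 / T) * (wt δ T c m v τ t * Real.log (4 + T + |t + u|)) ≤ 1 / 4 * VV δ T c m v := by
    rw [integral_const_mul]
    have q1 : (NR T : ℝ) ≤ T ^ (1 / 8 : ℝ) := by
      unfold NR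
      exact Nat.floor_le (by positivity)
    have q2 : I1 * (NR T * T ^ (1 / 192 : ℝ)) ^ 2 * √T ≤ I1 * (T ^ (1 / 8 : ℝ) * T ^ (1 / 192 : ℝ)) ^ 2 * √T := by gcongr
    calc Real.exp (XX T M) * (C7 / T) * ∫ t, wt δ T c m v τ t * Real.log (4 + T + |t + u|) ≤
          T ^ (1 / 4000 : ℝ) * (C7 / T) * (I1 * (T ^ (1 / 8 : ℝ) * T ^ (1 / 192 : ℝ)) ^ 2 * √T) := by
          apply mul_le_mul _ (b7.trans q2) (integral_nonneg fun t => mul_nonneg (wt_nonneg hT0 c m v τ t)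
            (Real.log_nonneg (by have := abs_nonneg (t + u); linarith))) (by positivity)
          exact mul_le_mul_of_nonneg_right hXe (by positivity)
      _ ≤ 1 / 4 := g5
      _ ≤ 1 / 4 * VV δ T c m v := by linarith
  have bC : ∫ t, Real.exp (XX T M) * (wt δ T c m v τ t * ∑' ρ : ZS, mx ρ * (if |(ρ : ℂ).re - 1 / 2| < 1 / 64 then 0 else
      1 / (1 + zb (XX T M) (t + u) ρ ^ 2))) ≤ 1 / 4 * VV δ T c m v := by
    rw [integral_const_mul]
    calc Real.exp (XX T M) * ∫ t, (wt δ T c m v τ t * ∑' ρ : ZS, mx ρ * (if |(ρ : ℂ).re - 1 / 2| < 1 / 64 then 0 else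
          1 / (1 + zb (XX T M) (t + u) ρ ^ 2))) ≤ Real.exp (XX T M) * (T ^ (-(1 / 2000) : ℝ) * VV δ T c m v) :=
          mul_le_mul_of_nonneg_left b6 (Real.exp_pos _).le
      _ ≤ T ^ (1 / 4000 : ℝ) * (T ^ (-(1 / 2000) : ℝ) * VV δ T c m v) := mul_le_mul_of_nonneg_right hXe (by positivity)
      _ = (T ^ (1 / 4000 : ℝ) * T ^ (-(1 / 2000) : ℝ)) * VV δ T c m v := by ring
      _ ≤ 1 / 4 * VV δ T c m v := mul_le_mul_of_nonneg_right g4 hV0
  have bM : ∫ t, Mj t ≤ VV δ T c m v := by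
    have e1 : ∫ t, Mj t = (∫ t, 2 * ∑ k ∈ IK T Y, wt δ T c m v τ t * LY C3 T M (PR δ T c m) (2 ^ k * Y) (t + u)) +
        (∫ t, Real.exp (XX T M) * (C7 / T) * (wt δ T c m v τ t * Real.log (4 + T + |t + u|))) +
        ∫ t, Real.exp (XX T M) * (wt δ T c m v τ t * ∑' ρ : ZS, mx ρ * (if |(ρ : ℂ).re - 1 / 2| < 1 / 64 then 0 else
          1 / (1 + zb (XX T M) (t + u) ρ ^ 2))) := by
      have e2 := integral_add (iA.add iB) iC
      simp only [Pi.add_apply] at e2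
      rw [integral_add iA iB] at e2
      exact e2
    rw [e1]
    linarith
  -- the sum over the zeros
  set F : ZS → ℝ → ℝ := fun ρ t => wt δ T c m v τ t * (mx ρ * (if Real.log T * |(ρ : ℂ).re - 1 / 2| < Y then 0 else
    Real.exp (2 * za (XX T M) ρ) / (1 + zb (XX T M) (t + u) ρ ^ 2))) with hF
  have hg0 : ∀ (ρ : ZS) (t : ℝ), 0 ≤ mx ρ * (if Real.log T * |(ρ : ℂ).re - 1 / 2| < Y then 0 else
    Real.exp (2 * za (XX T M) ρ) / (1 + zb (XX T M) (t + u) ρ ^ 2)) := by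
    intro ρ t
    refine mul_nonneg (mx_nonneg _) ?_
    split_ifs
    · exact le_rfl
    · positivity
  have hgc : ∀ ρ : ZS, Continuous fun t : ℝ => mx ρ * (if Real.log T * |(ρ : ℂ).re - 1 / 2| < Y then 0 else
    Real.exp (2 * za (XX T M) ρ) / (1 + zb (XX T M) (t + u) ρ ^ 2)) := by
    intro ρ
    refine continuous_const.mul ?_
    split_ifs
    · exact continuous_const
    · unfold zb
      exact Continuous.div continuous_const (by fun_prop) fun t => by positivity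
  have hgb : ∀ (ρ : ZS) (t : ℝ), ‖mx ρ * (if Real.log T * |(ρ : ℂ).re - 1 / 2| < Y then 0 else
    Real.exp (2 * za (XX T M) ρ) / (1 + zb (XX T M) (t + u) ρ ^ 2))‖ ≤ mx ρ * Real.exp (2 * za (XX T M) ρ) := by
    intro ρ t
    rw [Real.norm_eq_abs, abs_of_nonneg (hg0 ρ t)]
    refine mul_le_mul_of_nonneg_left ?_ (mx_nonneg _)
    split_ifs
    · exact (Real.exp_pos _).le
    · exact div_le_self (Real.exp_pos _).le (by have := sq_nonneg (zb (XX T M) (t + u) ρ); linarith)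
  have hwi : Integrable (wt δ T c m v τ) := by
    refine i7.mono' (wt_cont hT0 c m v τ).aestronglyMeasurable (ae_of_all _ fun t => ?_)
    rw [Real.norm_eq_abs, abs_of_nonneg (wt_nonneg hT0 c m v τ t)]
    refine le_mul_of_one_le_right (wt_nonneg hT0 c m v τ t) ?_
    have q1 : 3 ≤ Real.log T := hL3
    have q2 : Real.log T ≤ Real.log (4 + T + |t + u|) := Real.log_le_log hT0 (by have := abs_nonneg (t + u); linarith)
    linarith
  have hFi : ∀ ρ, Integrable (F ρ) := fun ρ => hwi.mul_bdd (hgc ρ).aestronglyMeasurable (ae_of_all _ (hgb ρ))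
  have hF0 : ∀ ρ t, 0 ≤ F ρ t := fun ρ t => mul_nonneg (wt_nonneg hT0 c m v τ t) (hg0 ρ t)
  have hFm : ∀ ρ, Measurable (F ρ) := fun ρ => ((wt_cont hT0 c m v τ).mul (hgc ρ)).measurable
  have hB : ∀ Z : Finset ZS, ∑ ρ ∈ Z, ∫ t, F ρ t ≤ VV δ T c m v := by
    intro Z
    rw [← integral_finsetSum _ fun ρ _ => hFi ρ]
    refine (integral_mono (integrable_finsetSum _ fun ρ _ => hFi ρ) iM fun t => ?_).trans bM
    obtain ⟨s1, s2⟩ := h7 T hT3 (XX T M) (by linarith) (t + u)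
    have s3 := far_fin (Q := PR δ T c m) hch hT3 hMpos hY1 s1 Z
    have s4 : ∑ ρ ∈ Z, F ρ t = wt δ T c m v τ t * ∑ ρ ∈ Z, mx ρ * (if Real.log T * |(ρ : ℂ).re - 1 / 2| < Y then 0 else
        Real.exp (2 * za (XX T M) ρ) / (1 + zb (XX T M) (t + u) ρ ^ 2)) := by
      rw [Finset.mul_sum]
    show ∑ ρ ∈ Z, F ρ t ≤ Mj t
    rw [s4]
    have s5 := wt_nonneg (δ := δ) hT0 c m v τ t
    have s6 := mul_le_mul_of_nonneg_left s2 (Real.exp_pos (XX T M)).le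
    calc wt δ T c m v τ t * ∑ ρ ∈ Z, mx ρ * (if Real.log T * |(ρ : ℂ).re - 1 / 2| < Y then 0 else
          Real.exp (2 * za (XX T M) ρ) / (1 + zb (XX T M) (t + u) ρ ^ 2)) ≤
          wt δ T c m v τ t * (2 * ∑ k ∈ IK T Y, LY C3 T M (PR δ T c m) (2 ^ k * Y) (t + u) +
            Real.exp (XX T M) * (C7 * Real.log (4 + T + |t + u|) / T) +
            Real.exp (XX T M) * ∑' ρ : ZS, mx ρ * (if |(ρ : ℂ).re - 1 / 2| < 1 / 64 then 0 else
              1 / (1 + zb (XX T M) (t + u) ρ ^ 2))) := by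
          apply mul_le_mul_of_nonneg_left _ s5
          linarith
      _ = Mj t := by
          simp only [hM]
          rw [← Finset.mul_sum]
          ring
  obtain ⟨r1, r2⟩ := tsum_bound56 hF0 hFm hFi hB
  have hfar : (fun t => wt δ T c m v τ t * far T M Y (t + u)) = fun t => ∑' ρ, F ρ t := by
    funext t
    unfold far
    rw [← tsum_mul_left]
  rw [hfar]
  exact ⟨r1, r2⟩

end Pool.Agent.Helper87.UX
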